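import Pool.Agent.Lib.MP_f2fc00_lc.Poly

set_option autoImplicit false

open Pool.Agent.Lib.MP_f2fc00_lc

/-- A program which computes the Alon-Tarsi number in polynomial time yields a program which
decides the satisfiability of formulas in conjunctive normal form in polynomial time; for every
fixed `k ≥ 3` it is enough to decide whether the Alon-Tarsi number is at most `k`, and there is an
efficiently computable reduction from satisfiability to this question. -/
theorem Pool.Agent.Results.MP_f2fc00_lc.NPHardPolyTime.result :
    (PolyComputesAT → PolyDecidesSat) ∧
      ∀ k : ℕ, 3 ≤ k → (PolyDecidesAT k → PolyDecidesSat) ∧ SatReducesToAT k :=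
  ⟨fun h => sat_of_at le_rfl (decides_of_computes h 3),
    fun _ hk => ⟨sat_of_at hk, satReducesToAT hk⟩⟩
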